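import Pool.Agent.BE01.Stmts

/-!
Squad BE01 (MP_be01ff_an), module NLP: solution of the nonlinear equation for the remainder.
-/

set_option autoImplicit false

namespace Pool.Agent.BE01.H40

open Set Filter Topology MeasureTheory
open scoped InnerProductSpace

noncomputable section

section basic

variable {X Y H : Type} [NormedCommRing X] [NormedAlgebra ℝ X] [NormedAddCommGroup Y]
  [NormedSpace ℝ Y] [NormedAddCommGroup H] [InnerProductSpace ℝ H]

theorem curve_add {A : Alg X Y H} {t0 : ℝ} {x x' : ℝ → X} {y y' : ℝ → Y} {h h' : ℝ → H}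
    (h1 : Curve A t0 x y h) (h2 : Curve A t0 x' y' h') :
    Curve A t0 (fun t => x t + x' t) (fun t => y t + y' t) (fun t => h t + h' t) := by
  obtain ⟨a1, a2, a3, a4, a5⟩ := h1
  obtain ⟨b1, b2, b3, b4, b5⟩ := h2
  refine ⟨a1.add b1, a2.add b2, a3.add b3, fun t ht => ?_, fun t ht => ?_⟩
  · simpa only [map_add] using (a4 t ht).fun_add (b4 t ht)
  · simpa only [map_add] using (a5 t ht).fun_add (b5 t ht)

theorem curve_mono {A : Alg X Y H} {t0 t1 : ℝ} {x : ℝ → X} {y : ℝ → Y} {h : ℝ → H}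
    (h1 : Curve A t1 x y h) (ht : t1 ≤ t0) : Curve A t0 x y h := by
  obtain ⟨a1, a2, a3, a4, a5⟩ := h1
  have hs : Ioi t0 ⊆ Ioi t1 := Ioi_subset_Ioi ht
  exact ⟨a1.mono hs, a2.mono hs, a3.mono hs, fun t h => a4 t (lt_of_le_of_lt ht h),
    fun t h => a5 t (lt_of_le_of_lt ht h)⟩

theorem curve_smooth (A : Alg X Y H) {t1 : ℝ} {w0 w1 w2 : ℝ → X}
    (h0 : ∀ t > t1, HasDerivAt w0 (w1 t) t) (h1 : ∀ t > t1, HasDerivAt w1 (w2 t) t)
    (h2 : ContinuousOn w2 (Ioi t1)) :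
    Curve A t1 w0 (fun t => A.i (w1 t)) (fun t => A.e (w2 t)) := by
  refine ⟨fun t ht => (h0 t ht).continuousAt.continuousWithinAt, fun t ht => ?_, ?_,
    fun t ht => ?_, fun t ht => ?_⟩
  · exact (A.i.continuous.continuousAt.comp (h1 t ht).continuousAt).continuousWithinAt
  · exact A.e.continuous.comp_continuousOn h2
  · exact A.i.hasFDerivAt.comp_hasDerivAt t (h0 t ht)
  · exact (A.j.comp A.i).hasFDerivAt.comp_hasDerivAt t (h1 t ht)

theorem jet_sub {t0 : ℝ} {f g : Fin 3 → ℝ → H} (hf : Jet t0 f) (hg : Jet t0 g) :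
    Jet t0 (f - g) := by
  obtain ⟨a1, a2, a3⟩ := hf
  obtain ⟨b1, b2, b3⟩ := hg
  exact ⟨fun t ht => (a1 t ht).sub (b1 t ht), fun t ht => (a2 t ht).sub (b2 t ht), a3.sub b3⟩

theorem jet_zero {t0 : ℝ} : Jet t0 (0 : Fin 3 → ℝ → H) := by
  refine ⟨fun t _ => ?_, fun t _ => ?_, ?_⟩
  · exact hasDerivAt_const t (0 : H)
  · exact hasDerivAt_const t (0 : H)
  · exact continuousOn_const

theorem bd_zero {t0 m N : ℝ} (ht : 0 < t0) (hN : 0 ≤ N) : Bd t0 m N (0 : Fin 3 → ℝ → H) := by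
  intro t h
  have ht' : 0 < t := ht.trans h
  have : 0 ≤ N * t ^ (-m) := mul_nonneg hN (Real.rpow_nonneg ht'.le _)
  simpa using this

/-- The three components of the curve of the remainder. -/
def cx {A : Alg X Y H} (W : Wv A) (f : Fin 3 → ℝ → H) (t : ℝ) : X :=
  - W.SX (f 1 t + wv W (f 2) t)

def cy {A : Alg X Y H} (W : Wv A) (f : Fin 3 → ℝ → H) (t : ℝ) : Y := - W.RY (ws W (f 2) t)

def ch {A : Alg X Y H} (W : Wv A) (f : Fin 3 → ℝ → H) (t : ℝ) : H := wv W (f 2) t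

/-- The nonlinear map. -/
def Th (A : Alg X Y H) (W : Wv A) (n : ℕ) (a : ℝ) (w0 w1 w2 : ℝ → X) (r : Fin 3 → ℝ → H)
    (f : Fin 3 → ℝ → H) : Fin 3 → ℝ → H :=
  ![fun t => a • A.e ((w0 t + cx W f t) ^ n - w0 t ^ n) + r 0 t,
    fun t => a • A.j (pw1 A n (w0 t + cx W f t) (A.i (w1 t) + cy W f t) -
      pw1 A n (w0 t) (A.i (w1 t))) + r 1 t,
    fun t => a • (pw2 A n (w0 t + cx W f t) (A.i (w1 t) + cy W f t) (A.e (w2 t) + ch W f t) -
      pw2 A n (w0 t) (A.i (w1 t)) (A.e (w2 t))) + r 2 t]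

theorem wv_sub (hLIA : LiaStmt) [CompleteSpace H] {A : Alg X Y H} (W : Wv A) {t0 m N N' : ℝ}
    {f g : ℝ → H} (ht0 : 0 < t0) (hm : 1 < m) (hf : ContinuousOn f (Ioi t0))
    (hg : ContinuousOn g (Ioi t0)) (hfN : ∀ t > t0, ‖f t‖ ≤ N * t ^ (-m))
    (hgN : ∀ t > t0, ‖g t‖ ≤ N' * t ^ (-m)) (t : ℝ) (ht : t > t0) :
    wv W (f - g) t = wv W f t - wv W g t ∧ ws W (f - g) t = ws W f t - ws W g t := by
  have h1 := (hLIA H W.C f t0 m N ht0 hm W.prp.C_le W.prp.C_cont hf hfN).1 t ht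
  have h2 := (hLIA H W.C g t0 m N' ht0 hm W.prp.C_le W.prp.C_cont hg hgN).1 t ht
  have h3 := (hLIA H W.Sn f t0 m N ht0 hm W.prp.Sn_le W.prp.Sn_cont hf hfN).1 t ht
  have h4 := (hLIA H W.Sn g t0 m N' ht0 hm W.prp.Sn_le W.prp.Sn_cont hg hgN).1 t ht
  constructor
  · unfold wv
    rw [← integral_sub h1 h2]
    simp only [Pi.sub_apply, map_sub]
  · unfold ws
    rw [← integral_sub h3 h4]
    simp only [Pi.sub_apply, map_sub]

theorem c_sub (hLIA : LiaStmt) [CompleteSpace H] {A : Alg X Y H} (W : Wv A) {t0 m N N' : ℝ}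
    {f g : Fin 3 → ℝ → H} (ht0 : 0 < t0) (hm : 1 < m) (hf : Jet t0 f) (hg : Jet t0 g)
    (hfN : Bd t0 m N f) (hgN : Bd t0 m N' g) (t : ℝ) (ht : t > t0) :
    cx W (f - g) t = cx W f t - cx W g t ∧ cy W (f - g) t = cy W f t - cy W g t ∧
      ch W (f - g) t = ch W f t - ch W g t := by
  have hb : ∀ {h : Fin 3 → ℝ → H} {N : ℝ}, Bd t0 m N h → ∀ t > t0, ‖h 2 t‖ ≤ N * t ^ (-m) := by
    intro h N hh t ht
    have := hh t ht
    have h0 := norm_nonneg (h 0 t)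
    have h1 := norm_nonneg (h 1 t)
    linarith
  obtain ⟨h1, h2⟩ := wv_sub hLIA W ht0 hm hf.2.2 hg.2.2 (hb hfN) (hb hgN) t ht
  have h1' : wv W ((f - g) 2) t = wv W (f 2) t - wv W (g 2) t := h1
  have h2' : ws W ((f - g) 2) t = ws W (f 2) t - ws W (g 2) t := h2
  refine ⟨?_, ?_, ?_⟩
  · unfold cx
    rw [h1']
    have : (f - g) 1 t + (wv W (f 2) t - wv W (g 2) t) =
      (f 1 t + wv W (f 2) t) - (g 1 t + wv W (g 2) t) := by
      simp only [Pi.sub_apply]; abel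
    rw [this, map_sub]; abel
  · unfold cy
    rw [h2', map_sub]; abel
  · exact h1'

theorem c_zero {A : Alg X Y H} (W : Wv A) (t : ℝ) :
    cx W (0 : Fin 3 → ℝ → H) t = 0 ∧ cy W (0 : Fin 3 → ℝ → H) t = 0 ∧
      ch W (0 : Fin 3 → ℝ → H) t = 0 := by
  have h1 : wv W ((0 : Fin 3 → ℝ → H) 2) t = 0 := by
    unfold wv; simp
  have h2 : ws W ((0 : Fin 3 → ℝ → H) 2) t = 0 := by
    unfold ws; simp
  refine ⟨?_, ?_, ?_⟩
  · unfold cx; rw [h1]; simp
  · unfold cy; rw [h2]; simp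
  · exact h1

theorem Th_zero (A : Alg X Y H) (W : Wv A) (n : ℕ) (a : ℝ) (w0 w1 w2 : ℝ → X)
    (r : Fin 3 → ℝ → H) (k : Fin 3) (t : ℝ) : Th A W n a w0 w1 w2 r 0 k t = r k t := by
  obtain ⟨h1, h2, h3⟩ := c_zero W t
  fin_cases k
  · simp [Th, h1]
  · simp [Th, h1, h2]
  · simp [Th, h1, h2, h3]

theorem Th_jet (hPOW : PowStmt) (A : Alg X Y H) (W : Wv A) (n : ℕ) (a t0 : ℝ) (w0 w1 w2 : ℝ → X)
    (r f : Fin 3 → ℝ → H)
    (hw : Curve A t0 w0 (fun t => A.i (w1 t)) (fun t => A.e (w2 t)))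
    (hc : Curve A t0 (cx W f) (cy W f) (ch W f)) (hr : Jet t0 r) :
    Jet t0 (Th A W n a w0 w1 w2 r f) := by
  have h1 := hPOW X Y H A t0 _ _ _ n hw
  have h2 := hPOW X Y H A t0 _ _ _ n (curve_add hw hc)
  obtain ⟨-, -, a3, a4, a5⟩ := h1
  obtain ⟨-, -, b3, b4, b5⟩ := h2
  obtain ⟨r1, r2, r3⟩ := hr
  refine ⟨fun t ht => ?_, fun t ht => ?_, ?_⟩
  · have h := A.j.hasFDerivAt.comp_hasDerivAt t ((b4 t ht).fun_sub (a4 t ht))
    have h' := (h.const_smul a).add (r1 t ht)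
    refine h'.congr_of_eventuallyEq (Eventually.of_forall fun s => ?_)
    simp [Th, Alg.e]
  · have h := (((b5 t ht).fun_sub (a5 t ht)).const_smul a).add (r2 t ht)
    refine h.congr_of_eventuallyEq (Eventually.of_forall fun s => ?_)
    simp [Th]
  · exact ((b3.sub a3).const_smul a).add r3

end basic

section main

variable {X Y H : Type} [NormedCommRing X] [NormedAlgebra ℝ X] [NormedAddCommGroup Y]
  [NormedSpace ℝ Y] [NormedAddCommGroup H] [InnerProductSpace ℝ H]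

theorem Th_sub (A : Alg X Y H) (W : Wv A) (n : ℕ) (a : ℝ) (w0 w1 w2 : ℝ → X)
    (r f g : Fin 3 → ℝ → H) (t : ℝ) :
    (Th A W n a w0 w1 w2 r f - Th A W n a w0 w1 w2 r g) 0 t =
      a • A.e ((w0 t + cx W f t) ^ n - (w0 t + cx W g t) ^ n) ∧
    (Th A W n a w0 w1 w2 r f - Th A W n a w0 w1 w2 r g) 1 t =
      a • A.j (pw1 A n (w0 t + cx W f t) (A.i (w1 t) + cy W f t) -
        pw1 A n (w0 t + cx W g t) (A.i (w1 t) + cy W g t)) ∧
    (Th A W n a w0 w1 w2 r f - Th A W n a w0 w1 w2 r g) 2 t =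
      a • (pw2 A n (w0 t + cx W f t) (A.i (w1 t) + cy W f t) (A.e (w2 t) + ch W f t) -
        pw2 A n (w0 t + cx W g t) (A.i (w1 t) + cy W g t) (A.e (w2 t) + ch W g t)) := by
  refine ⟨?_, ?_, ?_⟩
  · simp only [Th, Pi.sub_apply, Matrix.cons_val_zero, map_sub, smul_sub]
    abel
  · simp only [Th, Pi.sub_apply, Matrix.cons_val_one, Matrix.cons_val_zero, map_sub, smul_sub]
    abel
  · simp only [Th, Pi.sub_apply, Matrix.cons_val_two, Matrix.tail_cons, Matrix.head_cons, smul_sub]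
    abel

end main

theorem nlp (hLIA : LiaStmt) (hLID : LidStmt) (hPOW : PowStmt) (hDIF : DifStmt)
    (hFIX : FixStmt) : NlpStmt := by
  intro X Y H _ _ _ _ _ _ _ _ _ A W n a t1 m c1 M N1 w0 w1 w2 r hn ha ht1 hm hc1 hc1m hw0 hw1 hw2
    hM hgsz hr hrN
  have hm1 : 1 < m := by linarith
  have hm1' : 0 < m - 1 := by linarith
  obtain ⟨C0, hC0, hL⟩ := hLID X Y H A W
  -- constants
  have hN1 : 0 ≤ N1 := by
    have h1 := hrN (t1 + 1) (by linarith)
    have h2 : 0 < (t1 + 1) ^ (-m) := Real.rpow_pos_of_pos (by linarith) _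
    have h3 : 0 ≤ N1 * (t1 + 1) ^ (-m) := le_trans (by positivity) h1
    exact nonneg_of_mul_nonneg_left h3 h2
  set κ : ℝ := c1 / (m - 1) with hκ
  have hκ0 : 0 ≤ κ := div_nonneg hc1 hm1'.le
  have hκ1 : κ < 1 := by rw [hκ, div_lt_one hm1']; exact hc1m
  set N0 : ℝ := 2 * N1 / (1 - κ) with hN0def
  have hN0 : 0 ≤ N0 := div_nonneg (by linarith) (by linarith)
  set C0' : ℝ := C0 * (1 + 1 / (m - 1)) with hC0'
  have hC0'0 : 0 < C0' := by positivity
  set M' : ℝ := max M (max (C0' * N0) 1) with hM'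
  have hM'M : M ≤ M' := le_max_left _ _
  have hM'N : C0' * N0 ≤ M' := (le_max_left _ _).trans (le_max_right _ _)
  have hM'1 : 0 < M' := lt_of_lt_of_le one_pos ((le_max_right _ _).trans (le_max_right _ _))
  obtain ⟨C, hC, hD⟩ := hDIF X Y H A n M' hn hM'1
  -- the choice of `t0`
  obtain ⟨t0, ht01, ht0⟩ : ∃ t0 ≥ t1, 2 * a * C * C0' ^ 2 * N0 * t0 ^ (2 - m) ≤ (1 - κ) / 2 := by
    have h1 : Tendsto (fun t : ℝ => 2 * a * C * C0' ^ 2 * N0 * t ^ (-(m - 2))) atTop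
        (𝓝 (2 * a * C * C0' ^ 2 * N0 * 0)) :=
      (tendsto_rpow_neg_atTop (by linarith : 0 < m - 2)).const_mul _
    rw [mul_zero] at h1
    have h2 : ∀ᶠ t : ℝ in atTop, 2 * a * C * C0' ^ 2 * N0 * t ^ (-(m - 2)) < (1 - κ) / 2 :=
      h1.eventually_lt_const (by linarith)
    obtain ⟨t0, h3, h4⟩ := (h2.and (eventually_ge_atTop t1)).exists
    refine ⟨t0, h4, ?_⟩
    have h5 : (2 - m) = -(m - 2) := by ring
    rw [h5]
    exact h3.le
  have ht0' : 1 ≤ t0 := ht1.trans ht01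
  have ht00 : 0 < t0 := by linarith
  have hwc : Curve A t0 w0 (fun t => A.i (w1 t)) (fun t => A.e (w2 t)) :=
    curve_mono (curve_smooth A hw0 hw1 hw2) ht01
  have hrj : Jet t0 r := ⟨fun t ht => hr.1 t (lt_of_le_of_lt ht01 ht),
    fun t ht => hr.2.1 t (lt_of_le_of_lt ht01 ht), hr.2.2.mono (Ioi_subset_Ioi ht01)⟩
  -- bound of the curve
  have hcb : ∀ f : Fin 3 → ℝ → H, Jet t0 f → Bd t0 m N0 f → ∀ t > t0,
      ‖cx W f t‖ + ‖cy W f t‖ + ‖ch W f t‖ ≤ C0' * N0 * t ^ (1 - m) :=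
    fun f hf hfN t ht => (hL f t0 m N0 ht0' hm1 hN0 hf hfN).2.2.2 t ht
  have hle1 : ∀ t > t0, t ^ (1 - m) ≤ 1 := by
    intro t ht
    exact Real.rpow_le_one_of_one_le_of_nonpos (by linarith) (by linarith)
  have hcM : ∀ f : Fin 3 → ℝ → H, Jet t0 f → Bd t0 m N0 f → ∀ t > t0,
      ‖cx W f t‖ + ‖cy W f t‖ + ‖ch W f t‖ ≤ M' := by
    intro f hf hfN t ht
    refine (hcb f hf hfN t ht).trans (le_trans ?_ hM'N)
    exact mul_le_of_le_one_right (by positivity) (hle1 t ht)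
  -- the contraction property
  have hcon : ∀ f g : Fin 3 → ℝ → H, ∀ N : ℝ, 0 ≤ N → Jet t0 f → Bd t0 m N0 f → Jet t0 g →
      Bd t0 m N0 g → Bd t0 m N (f - g) →
      Bd t0 m ((1 + κ) / 2 * N) (Th A W n a w0 w1 w2 r f - Th A W n a w0 w1 w2 r g) := by
    intro f g N hN hf hfN hg hgN hfg t ht
    have htp : 0 < t := ht00.trans ht
    have htt1 : t > t1 := lt_of_le_of_lt ht01 ht
    obtain ⟨e1, e2, e3⟩ := c_sub hLIA W ht00 hm1 hf hg hfN hgN t ht
    have hl := hL (f - g) t0 m N ht0' hm1 hN (jet_sub hf hg) hfg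
    have hl2 := hl.2.1 t ht
    have hl3 := hl.2.2.1 t ht
    have hl4 := hl.2.2.2 t ht
    have e1' : - W.SX ((f - g) 1 t + wv W ((f - g) 2) t) = cx W f t - cx W g t := e1
    have e2' : - W.RY (ws W ((f - g) 2) t) = cy W f t - cy W g t := e2
    have e3' : wv W ((f - g) 2) t = ch W f t - ch W g t := e3
    rw [e1', e2'] at hl2
    rw [← hl2.1, ← hl2.2, e3'] at hl3
    rw [e1', e2', e3'] at hl4
    have hd := hD (w0 t) (w1 t) (w2 t) (cx W f t) (cx W g t) (cy W f t) (cy W g t) (ch W f t)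
      (ch W g t) ((hM t htt1).trans hM'M) (hcM f hf hfN t ht) (hcM g hg hgN t ht)
    obtain ⟨d1, d2, d3⟩ := Th_sub A W n a w0 w1 w2 r f g t
    rw [d1, d2, d3, norm_smul, norm_smul, norm_smul, Real.norm_of_nonneg ha.le]
    have hg0 : 0 ≤ gsz n (w0 t) (w1 t) (w2 t) := by unfold gsz; positivity
    have hfb := hcb f hf hfN t ht
    have hgb := hcb g hg hgN t ht
    have hp1 : 0 < t ^ (1 - m) := Real.rpow_pos_of_pos htp _
    -- first term
    have k1 : a * (gsz n (w0 t) (w1 t) (w2 t) * (‖A.e (cx W f t - cx W g t)‖ +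
        ‖A.j (cy W f t - cy W g t)‖ + ‖ch W f t - ch W g t‖)) ≤ κ * N * t ^ (-m) := by
      calc a * (gsz n (w0 t) (w1 t) (w2 t) * (‖A.e (cx W f t - cx W g t)‖ +
            ‖A.j (cy W f t - cy W g t)‖ + ‖ch W f t - ch W g t‖))
          = (a * gsz n (w0 t) (w1 t) (w2 t)) * (‖A.e (cx W f t - cx W g t)‖ +
            ‖A.j (cy W f t - cy W g t)‖ + ‖ch W f t - ch W g t‖) := by ring
        _ ≤ (c1 / t) * (N / (m - 1) * t ^ (1 - m)) := by
            refine mul_le_mul (hgsz t htt1) hl3 (by positivity) (by positivity)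
        _ = κ * N * t ^ (-m) := by
            have : t ^ (-m) = t ^ (1 - m) / t := by
              rw [div_eq_mul_inv, ← Real.rpow_neg_one t, ← Real.rpow_add htp]
              congr 1; ring
            rw [this, hκ]
            field_simp
    -- second term
    have k2 : a * (C * ((‖cx W f t‖ + ‖cy W f t‖ + ‖ch W f t‖) +
        (‖cx W g t‖ + ‖cy W g t‖ + ‖ch W g t‖)) * (‖cx W f t - cx W g t‖ +
        ‖cy W f t - cy W g t‖ + ‖ch W f t - ch W g t‖)) ≤ (1 - κ) / 2 * N * t ^ (-m) := by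
      calc a * (C * ((‖cx W f t‖ + ‖cy W f t‖ + ‖ch W f t‖) +
            (‖cx W g t‖ + ‖cy W g t‖ + ‖ch W g t‖)) * (‖cx W f t - cx W g t‖ +
            ‖cy W f t - cy W g t‖ + ‖ch W f t - ch W g t‖))
          ≤ a * (C * (C0' * N0 * t ^ (1 - m) + C0' * N0 * t ^ (1 - m)) *
            (C0' * N * t ^ (1 - m))) := by
            gcongr
        _ = (2 * a * C * C0' ^ 2 * N0 * t ^ (2 - m)) * (N * t ^ (-m)) := by
            have : t ^ (2 - m) * t ^ (-m) = t ^ (1 - m) * t ^ (1 - m) := by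
              rw [← Real.rpow_add htp, ← Real.rpow_add htp]
              congr 1; ring
            linear_combination (-2 * a * C * C0' ^ 2 * N0 * N) * this
        _ ≤ ((1 - κ) / 2) * (N * t ^ (-m)) := by
            refine mul_le_mul_of_nonneg_right (le_trans ?_ ht0) (by positivity)
            have : t ^ (2 - m) ≤ t0 ^ (2 - m) :=
              Real.rpow_le_rpow_of_nonpos ht00 ht.le (by linarith)
            gcongr
        _ = (1 - κ) / 2 * N * t ^ (-m) := by ring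
    have k3 := mul_le_mul_of_nonneg_left hd ha.le
    rw [mul_add a (_ * _)] at k3
    have k4 : κ * N * t ^ (-m) + (1 - κ) / 2 * N * t ^ (-m) = (1 + κ) / 2 * N * t ^ (-m) := by
      ring
    have k5 : a * (‖A.e ((w0 t + cx W f t) ^ n - (w0 t + cx W g t) ^ n)‖ +
      ‖A.j (pw1 A n (w0 t + cx W f t) (A.i (w1 t) + cy W f t) -
        pw1 A n (w0 t + cx W g t) (A.i (w1 t) + cy W g t))‖ +
      ‖pw2 A n (w0 t + cx W f t) (A.i (w1 t) + cy W f t) (A.e (w2 t) + ch W f t) -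
        pw2 A n (w0 t + cx W g t) (A.i (w1 t) + cy W g t) (A.e (w2 t) + ch W g t)‖) =
      a * ‖A.e ((w0 t + cx W f t) ^ n - (w0 t + cx W g t) ^ n)‖ +
      a * ‖A.j (pw1 A n (w0 t + cx W f t) (A.i (w1 t) + cy W f t) -
        pw1 A n (w0 t + cx W g t) (A.i (w1 t) + cy W g t))‖ +
      a * ‖pw2 A n (w0 t + cx W f t) (A.i (w1 t) + cy W f t) (A.e (w2 t) + ch W f t) -
        pw2 A n (w0 t + cx W g t) (A.i (w1 t) + cy W g t) (A.e (w2 t) + ch W g t)‖ := by ring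
    linarith
  obtain ⟨f, hfj, hfb, hfe⟩ := hFIX H t0 m N0 ((1 + κ) / 2) (Th A W n a w0 w1 w2 r) ht00
    (by linarith) hN0 (by linarith) (by linarith) (fun f hf hfN => by
      constructor
      · exact Th_jet hPOW A W n a t0 w0 w1 w2 r f hwc (hL f t0 m N0 ht0' hm1 hN0 hf hfN).1 hrj
      · intro t ht
        have htp : 0 < t := ht00.trans ht
        have h1 := hcon f 0 N0 hN0 hf hfN jet_zero (bd_zero ht00 hN0) (by rwa [sub_zero]) t ht
        have h2 := hrN t (lt_of_le_of_lt ht01 ht)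
        have h3 : ∀ k, ‖Th A W n a w0 w1 w2 r f k t‖ ≤
            ‖(Th A W n a w0 w1 w2 r f - Th A W n a w0 w1 w2 r 0) k t‖ + ‖r k t‖ := by
          intro k
          have h4 := Th_zero A W n a w0 w1 w2 r k t
          have h5 : Th A W n a w0 w1 w2 r f k t =
            (Th A W n a w0 w1 w2 r f - Th A W n a w0 w1 w2 r 0) k t + r k t := by
            rw [← h4]
            simp only [Pi.sub_apply]
            abel
          calc ‖Th A W n a w0 w1 w2 r f k t‖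
              = ‖(Th A W n a w0 w1 w2 r f - Th A W n a w0 w1 w2 r 0) k t + r k t‖ := by rw [← h5]
            _ ≤ _ := norm_add_le _ _
        have h30 := h3 0
        have h31 := h3 1
        have h32 := h3 2
        have h6 : (1 + κ) / 2 * N0 * t ^ (-m) + N1 * t ^ (-m) = N0 * t ^ (-m) := by
          have : N1 = N0 * (1 - κ) / 2 := by
            rw [hN0def]
            have : 1 - κ ≠ 0 := by linarith
            field_simp
          rw [this]; ring
        linarith)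
    (fun f g N hN hf hfN hg hgN hfg => hcon f g N hN hf hfN hg hgN hfg)
  refine ⟨t0, ht01, N0, f, hfj, hfb, fun t ht => ?_⟩
  have h1 := hfe 0 t ht
  rw [← h1]
  simp [Th, cx, sub_eq_add_neg]

end

end Pool.Agent.BE01.H40
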